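import Pool.Agent.Helper324_MB.Lur

/-!
# A Banach space with an extended M-basis and without equivalent LUR norm (MP_ea77cd_an, Q1)
-/

set_option autoImplicit false

namespace Pool.Agent.Results.MP_ea77cd_an.NoLURNorm

open Filter
open scoped Topology

/-- `E` has an extended M-basis: there are a family of vectors `x i` and a family of continuous
linear functionals `f i`, with the same index set, such that `f j (x i)` is `1` for `i = j` and `0`
otherwise, the closed linear span of the vectors is `E`, and the functionals are total. -/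
def HasExtendedMBasis (𝕜 : Type) [RCLike 𝕜] (E : Type) [NormedAddCommGroup E] [NormedSpace 𝕜 E] :
    Prop :=
  ∃ (I : Type) (x : I → E) (f : I → (E →L[𝕜] 𝕜)), (∀ i, f i (x i) = 1) ∧
    (∀ i j, i ≠ j → f j (x i) = 0) ∧
    (Submodule.span 𝕜 (Set.range x)).topologicalClosure = ⊤ ∧
    ∀ v : E, (∀ i, f i v = 0) → v = 0

/-- The seminorm `p` is a norm on `E` which is equivalent to the given one. -/
def IsEquivalentNorm {𝕜 : Type} [RCLike 𝕜] {E : Type} [NormedAddCommGroup E] [NormedSpace 𝕜 E]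
    (p : Seminorm 𝕜 E) : Prop :=
  ∃ c C : ℝ, 0 < c ∧ 0 < C ∧ ∀ v, c * ‖v‖ ≤ p v ∧ p v ≤ C * ‖v‖

/-- `p` is locally uniformly convex: if `p x = 1`, `p (x_n) = 1` and `p (x_n + x)` tends to `2`,
then `p (x_n - x)` tends to `0`. -/
def IsLUR {𝕜 : Type} [RCLike 𝕜] {E : Type} [NormedAddCommGroup E] [NormedSpace 𝕜 E]
    (p : Seminorm 𝕜 E) : Prop :=
  ∀ (x : E) (xs : ℕ → E), p x = 1 → (∀ n, p (xs n) = 1) →
    Tendsto (fun n => p (xs n + x)) atTop (𝓝 2) → Tendsto (fun n => p (xs n - x)) atTop (𝓝 0)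

/-- There is a Banach space (over the reals or over the complex numbers) with an extended M-basis
on which no equivalent norm is locally uniformly convex. -/
theorem result (𝕜 : Type) [RCLike 𝕜] :
    ∃ (E : Type) (_ : NormedAddCommGroup E) (_ : NormedSpace 𝕜 E), CompleteSpace E ∧
      HasExtendedMBasis 𝕜 E ∧ ∀ p : Seminorm 𝕜 E, IsEquivalentNorm p → ¬ IsLUR p := by
  refine ⟨Helper324_MB.EE 𝕜, inferInstance, inferInstance, inferInstance,
    ⟨ℕ ⊕ Helper324_MB.Gam 𝕜, Helper324_MB.vec 𝕜, Helper324_MB.fct 𝕜, Helper324_MB.one_biorth 𝕜,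
      Helper324_MB.zero_biorth 𝕜, Helper324_MB.span_top 𝕜, Helper324_MB.total 𝕜⟩, ?_⟩
  rintro p ⟨c, C, hc, hC, h⟩ hlur
  refine Helper324_MB.not_lur (p.comp (LinearMap.inl 𝕜 (Helper324_MB.Linf 𝕜) (Helper324_MB.Lone 𝕜)))
    ⟨c, C, hc, hC, fun u => ?_⟩ ?_
  · have h1 := h (u, 0)
    rw [Prod.norm_def, norm_zero, max_eq_left (norm_nonneg u)] at h1
    exact h1
  · intro x xs hx hxs hlim
    have e1 : ∀ n, (LinearMap.inl 𝕜 (Helper324_MB.Linf 𝕜) (Helper324_MB.Lone 𝕜)) (xs n + x) =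
        ((xs n, 0) : Helper324_MB.EE 𝕜) + (x, 0) := fun n => by simp
    have e2 : ∀ n, (LinearMap.inl 𝕜 (Helper324_MB.Linf 𝕜) (Helper324_MB.Lone 𝕜)) (xs n - x) =
        ((xs n, 0) : Helper324_MB.EE 𝕜) - (x, 0) := fun n => by simp
    simp only [Seminorm.comp_apply, e1] at hlim
    simp only [Seminorm.comp_apply, e2]
    exact hlur (x, 0) (fun n => (xs n, 0)) hx hxs hlim

end Pool.Agent.Results.MP_ea77cd_an.NoLURNorm
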